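import Pool.Agent.H343.AN.StAB

/-!
# Project AN, job B1: projections and geodesics
-/

set_option autoImplicit false

namespace Pool.Agent.H79.AN

open Pool.Agent.TH68 Pool.Agent.Helper97.Hyp Pool.Agent.H343.AN

theorem near : S_near := by
  intro Γ _ W 𝒜 _ Y A p q p' q' hp hq h
  have h1 := Y.hδ
  have h2 := Y.hθ
  have h3 := far_of_pd Y.hyp hp hq (by linarith)
  have h4 := pd_le_of_proj hp hq
  have h5 := far_of_proj Y.hyp hp hq (by linarith)
  have h6 := dist_triangle p' q' q
  have h7 := dist_triangle p p' q'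
  rw [dist_comm q' q] at h6
  refine ⟨by linarith, ?_, ?_⟩
  · unfold exc
    linarith
  · unfold exc
    rw [dist_comm q' q]
    linarith

theorem odist : S_near → S_odist := by
  intro hn Γ _ W 𝒜 _ Y A p q a b h1 h2 h3
  have h4 := Y.hδ
  have h5 := Y.hθ
  have h6 := pd_tri (Y.Sne A) p b q
  rw [pd_symm (Y.Sne A) b q] at h6
  obtain ⟨b', hb⟩ := Y.proj A b
  have h7 := (hn Y A h3 hb (by linarith)).1
  have h8 := dist_nonneg (x := b) (y := b')
  linarith

end Pool.Agent.H79.AN
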