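import Pool.Agent.H343.AN.StAB

/-!
# Project AN, job B10: uniqueness of the exit point of a circle
-/

set_option autoImplicit false

namespace Pool.Agent.H79.AN

open Pool.Agent.TH68 Pool.Agent.Helper97.Hyp Pool.Agent.H343.AN

section

variable {Γ : Type} [Group Γ] {W : WNorm Γ} {𝒜 : Type} [MulAction Γ 𝒜] {Y : Sys Γ W 𝒜}

lemma selfProj (A : 𝒜) {s : Pt W} (hs : s ∈ Y.S A) : IsProj Y.θ (Y.S A) s s := by
  have h1 := Y.hδ
  have h2 := Y.hθ
  refine ⟨hs, fun t _ => ?_⟩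
  rw [dist_self]
  linarith

lemma crd1 (R : Circ Y) (A : 𝒜) (a b : Pt W) : |R.crd A a - R.crd A b| ≤ dist a b + Y.θ := by
  have h1 := abs_le.mp (R.crd_spec A a b)
  have h2 := pd_le_dist (Y.Sne A) a b
  linarith [h1.1]

lemma crd2 (R : Circ Y) (A : 𝒜) {a b : Pt W} (ha : a ∈ Y.S A) (hb : b ∈ Y.S A) :
    dist a b ≤ |R.crd A a - R.crd A b| + 2 * Y.θ := by
  have h1 := abs_le.mp (R.crd_spec A a b)
  have h2 := le_pd_of_proj (selfProj A ha) (selfProj A hb)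
  linarith [h1.2]

lemma smul_S (R : Circ Y) {A : 𝒜} {g : Γ} (hg : g ∈ R.G A) {x : Pt W} (hx : x ∈ Y.S A) :
    g • x ∈ Y.S A := by
  have := Y.smul_mem g A x hx
  rwa [R.fix A g hg] at this

/-- the case where the two points are on different sides -/
lemma opp (R : Circ Y) (hρ : 10 ^ 6 * Y.θ ≤ R.ρ) {A : 𝒜} {x y : Pt W} (hx : x ∈ Y.S A)
    (hy : y ∈ Y.S A) {K : ℝ} (hK0 : 0 ≤ K) (hK : K ≤ R.ρ / 100)
    (h1 : R.ρ - 2 * K - 38 * Y.θ ≤ |R.crd A x - R.crd A y|)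
    (h2 : |R.crd A x - R.crd A y| ≤ R.ρ + 50 * Y.θ) :
    ∃ h ∈ R.G A, dist x (h • y) ≤ 2 * K + 54 * Y.θ := by
  have t1 := Y.hδ
  have t2 := Y.hθ
  obtain ⟨h, hh, hd⟩ := R.cob A x hx y hy
  refine ⟨h, hh, ?_⟩
  have hy' := smul_S R hh hy
  have a1 := crd1 R A x y
  have a2 := crd2 R A hx hy
  have hne : h ≠ 1 := by
    rintro rfl
    rw [one_smul] at hd
    linarith
  have b1 := R.far A h hh hne y hy
  have b2 : dist y (h • y) ≤ 7 / 4 * R.ρ := by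
    have := dist_triangle y x (h • y)
    rw [dist_comm y x] at this
    linarith
  have b3 := R.gap A h hh y hy b2
  have c1 := crd1 R A y (h • y)
  have c2 := crd2 R A hy hy'
  have c3 := crd1 R A x (h • y)
  have c4 := crd2 R A hx hy'
  set a := R.crd A x
  set b := R.crd A y
  set w := R.crd A (h • y)
  refine c4.trans ?_
  rcases abs_cases (a - b) with ⟨e1, e1'⟩ | ⟨e1, e1'⟩ <;>
  rcases abs_cases (b - w) with ⟨e2, e2'⟩ | ⟨e2, e2'⟩ <;>
  rcases abs_cases (a - w) with ⟨e3, e3'⟩ | ⟨e3, e3'⟩ <;>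
  rw [e1] at h1 h2 a1 a2 <;> rw [e2] at c1 c2 <;> rw [e3] at c3 c4 ⊢ <;> linarith

end

theorem exit : S_near → S_redpd → S_entry → S_exit := by
  intro hn hr he Γ _ W 𝒜 _ Y R hρ A o u u' x x' m K hm hK0 hK h1 h2 h3 h4 h5 h6
  have t1 := Y.hδ
  have t2 := Y.hθ
  obtain ⟨e, hpe⟩ := Y.proj A o
  obtain ⟨e', hpe'⟩ := Y.proj A (m • o)
  have n1 := hn Y A hpe h5 (by linarith)
  have n2 := hn Y A hpe' h6 (by linarith)
  obtain ⟨⟨g, hg, hge⟩, -, -⟩ := he Y R hρ A (η := 4 * Y.θ) hm (by linarith) (by linarith)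
    hpe hpe' (Redu.sub h1 n1.2.1) (Redu.sub h2 n2.2.1)
  have r1 := hr Y R hρ A le_rfl (Redu.of_red h1 le_rfl)
  have r2 := hr Y R hρ A le_rfl (Redu.of_red h2 le_rfl)
  -- distances on the axis
  have d1 := pd_le_of_proj hpe h5
  have d2 := le_pd_of_proj hpe h5
  have d3 := pd_le_of_proj hpe' h6
  have d4 := le_pd_of_proj hpe' h6
  have hxS := h5.1
  have hyS := smul_S R hg h6.1
  have heS := hpe.1
  have heS' := smul_S R hg hpe'.1
  have d5 : dist (g • e') (g • x') = dist e' x' := dist_smul g e' x'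
  have c1 := crd1 R A e x
  have c2 := crd2 R A heS hxS
  have c3 := crd1 R A (g • e') (g • x')
  have c4 := crd2 R A heS' hyS
  have c5 := crd1 R A e (g • e')
  have c6 := crd1 R A x (g • x')
  have c7 := crd2 R A hxS hyS
  by_cases hcase : |R.crd A x - R.crd A (g • x')| ≤ K + 50 * Y.θ
  · exact ⟨g, hg, by linarith⟩
  · push Not at hcase
    obtain ⟨h, hh, hd⟩ := opp R hρ hxS hyS hK0 hK (by
      set a := R.crd A x
      set b := R.crd A (g • x')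
      set p := R.crd A e
      set q := R.crd A (g • e')
      rcases abs_cases (a - b) with ⟨e1, e1'⟩ | ⟨e1, e1'⟩ <;>
      rcases abs_cases (p - a) with ⟨e2, e2'⟩ | ⟨e2, e2'⟩ <;>
      rcases abs_cases (q - b) with ⟨e3, e3'⟩ | ⟨e3, e3'⟩ <;>
      rcases abs_cases (p - q) with ⟨e4, e4'⟩ | ⟨e4, e4'⟩ <;>
      rw [e1] at hcase ⊢ <;> rw [e2] at c1 c2 <;> rw [e3] at c3 c4 <;> rw [e4] at c5 <;>
      linarith) (by
      set a := R.crd A x
      set b := R.crd A (g • x')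
      set p := R.crd A e
      set q := R.crd A (g • e')
      rcases abs_cases (a - b) with ⟨e1, e1'⟩ | ⟨e1, e1'⟩ <;>
      rcases abs_cases (p - a) with ⟨e2, e2'⟩ | ⟨e2, e2'⟩ <;>
      rcases abs_cases (q - b) with ⟨e3, e3'⟩ | ⟨e3, e3'⟩ <;>
      rcases abs_cases (p - q) with ⟨e4, e4'⟩ | ⟨e4, e4'⟩ <;>
      rw [e1] at hcase ⊢ <;> rw [e2] at c1 c2 <;> rw [e3] at c3 c4 <;> rw [e4] at c5 <;>
      linarith)
    refine ⟨h * g, (R.G A).mul_mem hh hg, ?_⟩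
    rw [mul_smul]
    linarith

end Pool.Agent.H79.AN
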