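import Pool.Agent.H343.AN.StAB

/-!
# Project AN, job B11: uniqueness of the axis near the end of a minimal segment
-/

set_option autoImplicit false

namespace Pool.Agent.H79.AN

open Pool.Agent.TH68 Pool.Agent.Helper97.Hyp Pool.Agent.H343.AN

section

variable {Γ : Type} [Group Γ] {W : WNorm Γ} {𝒜 : Type} [MulAction Γ 𝒜] (Y : Sys Γ W 𝒜)

/-- two axes near `u` cannot both have large projections of `(u, c)` -/
lemma core (ho : S_order) (hd : S_odist) {A B : 𝒜} (hAB : A ≠ B) {u c s s' : Pt W} {α β : ℝ}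
    (hs : s ∈ Y.S A) (hs' : s' ∈ Y.S B) (h1 : dist u s ≤ α) (h2 : dist u s' ≤ β)
    (h3 : β + 20 * Y.θ < pd (Y.S A) u c) (h4 : α + 20 * Y.θ < pd (Y.S B) u c) : False := by
  have t1 := Y.hδ
  have t2 := Y.hθ
  have e1 := dist_nonneg (x := u) (y := s)
  have e2 := dist_nonneg (x := u) (y := s')
  obtain ⟨a, ha⟩ := Y.proj A u
  obtain ⟨b, hb⟩ := Y.proj B u
  rcases ho Y hAB u c (by linarith) (by linarith) with h | h
  · have h5 := (h s hs s' hs').2
    have h6 := hd Y (by linarith) h5 ha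
    have := dist_nonneg (x := u) (y := a)
    linarith
  · have h5 := (h s hs s' hs').2
    have h6 := hd Y (by linarith) h5 hb
    have := dist_nonneg (x := u) (y := b)
    linarith

/-- an axis near `u` comes before `C` from `u` to `p` -/
lemma before (ho : S_order) (hd : S_odist) {A C : 𝒜} (hAC : A ≠ C) {p u s : Pt W} {t h : ℝ}
    (hs : s ∈ Y.S A) (h1 : dist u s ≤ t) (h2 : h ≤ pd (Y.S A) p u) (h3 : 20 * Y.θ ≤ h)
    (h4 : t + 20 * Y.θ < pd (Y.S C) p u) :
    ∀ c ∈ Y.S C, pd (Y.S A) p c ≤ 8 * Y.θ ∧ h ≤ dist u c + 20 * Y.θ := by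
  have t1 := Y.hδ
  have t2 := Y.hθ
  have e1 := dist_nonneg (x := u) (y := s)
  rw [pd_symm (Y.Sne A)] at h2
  rw [pd_symm (Y.Sne C)] at h4
  obtain ⟨a, ha⟩ := Y.proj A u
  obtain ⟨b, hb⟩ := Y.proj C u
  rcases ho Y hAC u p (by linarith) (by linarith) with h | h
  · intro c hc
    have h5 := (h s hs c hc).2
    have h6 := hd Y (by linarith) h5 ha
    have := dist_nonneg (x := u) (y := a)
    exact ⟨h5, by linarith⟩
  · exfalso
    obtain ⟨c, hc⟩ := Y.Sne C
    have h5 := (h s hs c hc).2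
    have h6 := hd Y (by linarith) h5 hb
    have := dist_nonneg (x := u) (y := b)
    linarith

end

theorem ax : S_near → S_redpd → S_wind → S_order → S_odist → S_ax := by
  intro _ hr hw ho hd Γ _ W 𝒜 _ Y R hρ A B o u v s s' m m' t T h hm hm' ht hT hTt hh hR hR' huv
    hpA hpB hs hus hs' hvs'
  have t1 := Y.hδ
  have t2 := Y.hθ
  by_contra hAB
  have d1 := dist_triangle u v s'
  have d2 := dist_triangle v u s
  rw [dist_comm v u] at d2
  have p1 := pd_le_dist (Y.Sne B) u v
  by_cases hmm : m = m'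
  · subst hmm
    have q1 := pd_tri (Y.Sne B) v u (m • o)
    rw [pd_symm (Y.Sne B) v (m • o), pd_symm (Y.Sne B) v u] at q1
    refine core Y ho hd hAB hs hs' hus (d1.trans (add_le_add huv hvs')) (c := m • o) ?_ ?_
    · rw [pd_symm (Y.Sne A)]
      linarith
    · linarith
  · have hn : m' * m⁻¹ ∈ R.N := R.N.mul_mem hm' (R.N.inv_mem hm)
    have hn1 : m' * m⁻¹ ≠ 1 := fun h0 => hmm (mul_inv_eq_one.mp h0).symm
    obtain ⟨C, r, -, -, -, hC⟩ := hw Y R hn hn1 (m • o)
    have hsm : (m' * m⁻¹) • (m • o) = m' • o := by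
      rw [smul_smul, inv_mul_cancel_right]
    rw [hsm] at hC
    have r1 := hr Y R hρ C le_rfl (Redu.of_red hR le_rfl)
    have r2 := hr Y R hρ C le_rfl (Redu.of_red hR' le_rfl)
    have r3 := pd_le_dist (Y.Sne C) u v
    have r4 := pd_tri (Y.Sne C) (m • o) u (m' • o)
    have r5 := pd_tri (Y.Sne C) u v (m' • o)
    rw [pd_symm (Y.Sne C) v (m' • o)] at r5
    by_cases hAC : A = C
    · subst hAC
      have h5 := (before Y ho hd (C := A) (Ne.symm hAB) (p := m' • o) hs' hvs' hpB (by linarith)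
        (by linarith) s hs).2
      linarith
    · have k1 := before Y ho hd hAC (p := m • o) hs hus hpA (by linarith) (by linarith)
      by_cases hBC : B = C
      · subst hBC
        have h5 := (k1 s' hs').2
        linarith
      · have k2 := before Y ho hd hBC (p := m' • o) hs' hvs' hpB (by linarith) (by linarith)
        obtain ⟨c, hc⟩ := Y.Sne C
        have l1 := (k1 c hc).1
        have l2 := (k2 c hc).1
        have q1 := pd_tri (Y.Sne A) (m • o) c u
        rw [pd_symm (Y.Sne A) c u] at q1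
        have q2 := pd_tri (Y.Sne B) (m' • o) c v
        have q3 := pd_tri (Y.Sne B) c u v
        rw [pd_symm (Y.Sne B) c u] at q3
        refine core Y ho hd hAB hs hs' hus (d1.trans (add_le_add huv hvs')) (c := c) ?_ ?_
        · linarith
        · linarith

end Pool.Agent.H79.AN
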