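import Pool.Agent.H343.AN.StAB

/-!
# Project AN, job B1213: entry level of a circle
-/

set_option autoImplicit false

namespace Pool.Agent.H79.AN

open Pool.Agent.TH68 Pool.Agent.Helper97.Hyp Pool.Agent.H343.AN

lemma ent_set_smul {Γ : Type} [Group Γ] {W : WNorm Γ} {𝒜 : Type} [MulAction Γ 𝒜] {Y : Sys Γ W 𝒜}
    (R : Circ Y) (A : 𝒜) {n : Γ} (hn : n ∈ R.N) {t : ℝ}
    (h : ∃ m ∈ R.N, ∃ s ∈ Y.S A, dist (m • pt W 1) s = t) :
    ∃ m ∈ R.N, ∃ s ∈ Y.S (n • A), dist (m • pt W 1) s = t := by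
  obtain ⟨m, hm, s, hs, hd⟩ := h
  refine ⟨n * m, R.N.mul_mem hn hm, n • s, Y.smul_mem n A s hs, ?_⟩
  rw [mul_smul, dist_smul]
  exact hd

theorem entatt : S_entatt := by
  intro Γ _ W 𝒜 _ Y R A
  classical
  have hex : ∃ k : ℕ, ∃ m ∈ R.N, ∃ s ∈ Y.S A, nd (m • pt W 1) s = k := by
    obtain ⟨s, hs⟩ := Y.Sne A
    exact ⟨_, 1, R.N.one_mem, s, hs, rfl⟩
  have hleast : IsLeast {t : ℝ | ∃ n ∈ R.N, ∃ s ∈ Y.S A, dist (n • pt W 1) s = t}
      (Nat.find hex : ℝ) := by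
    constructor
    · obtain ⟨m, hm, s, hs, hd⟩ := Nat.find_spec hex
      refine ⟨m, hm, s, hs, ?_⟩
      rw [dist_eq_nd, hd]
    · rintro t ⟨m, hm, s, hs, rfl⟩
      rw [dist_eq_nd]
      exact_mod_cast Nat.find_min' hex ⟨m, hm, s, hs, rfl⟩
  have he : ent R A = (Nat.find hex : ℝ) := hleast.csInf_eq
  refine ⟨?_, ?_, ?_⟩
  · rw [he]
    exact hleast.1
  · intro n hn s hs
    rw [he]
    exact hleast.2 ⟨n, hn, s, hs, rfl⟩
  · intro n hn
    unfold ent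
    congr 1
    ext t
    constructor
    · intro h
      have := ent_set_smul R (n • A) (R.N.inv_mem hn) h
      rwa [inv_smul_smul] at this
    · intro h
      exact ent_set_smul R A hn h

theorem entlev : S_near → S_entry → S_entatt → S_entlev := by
  intro _ he ha Γ _ W 𝒜 _ Y R hρ A e m η hm h1 h2 h3 h4
  have t1 := Y.hδ
  have t2 := Y.hθ
  obtain ⟨⟨n, hn, s, hs, hd⟩, hle, -⟩ := ha Y R A
  obtain ⟨π, hπ⟩ := Y.proj A (n • pt W 1)
  have e1 := proj_dist_le hπ hs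
  rw [hd] at e1
  have e2 := hle n hn π hπ.1
  have hred : Redu R.N η (n • pt W 1) π := by
    intro n' hn'
    have e3 := hle (n'⁻¹ * n) (R.N.mul_mem (R.N.inv_mem hn') hn) π hπ.1
    rw [mul_smul, ← dist_smul n', smul_inv_smul] at e3
    linarith
  have hmm : (m * n⁻¹) • (n • pt W 1) = m • pt W 1 := by
    rw [smul_smul, inv_mul_cancel_right]
  have h3' := h3
  rw [← hmm] at h3' h4
  have h5 := (he Y R hρ A (R.N.mul_mem hm (R.N.inv_mem hn)) (by linarith) h2 hπ h3' hred h4).2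
  rw [hmm] at h5
  rw [abs_le]
  constructor
  · linarith [h5.1]
  · linarith [h5.2]

end Pool.Agent.H79.AN
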