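import Pool.Agent.H343.AN.StAB

/-!
# Project AN, job B45: Behrstock inequality and order of two axes
-/

set_option autoImplicit false

namespace Pool.Agent.H79.AN

open Pool.Agent.TH68 Pool.Agent.Helper97.Hyp Pool.Agent.H343.AN

theorem behr : S_near → S_behr := by
  intro hn Γ _ W 𝒜 _ Y A B hAB p a ha b hb
  have h1 := Y.hδ
  have h2 := Y.hθ
  by_contra hc
  push Not at hc
  obtain ⟨c1, c2⟩ := hc
  obtain ⟨p', hp'⟩ := Y.proj A p
  obtain ⟨b₀, hb₀⟩ := Y.proj B p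
  have e1 := Y.small A B hAB b₀ hb₀.1 b hb
  have e2 := Y.small B A hAB.symm p' hp'.1 a ha
  have t1 := pd_tri (Y.Sne A) p b₀ b
  have t2 := pd_tri (Y.Sne B) p p' a
  obtain ⟨b₁, hb₁⟩ := Y.proj A b₀
  obtain ⟨p₁, hp₁⟩ := Y.proj B p'
  have n1 := (hn Y A hp' hb₁ (by linarith)).1
  have n2 := (hn Y B hb₀ hp₁ (by linarith)).1
  have d1 := dist_nonneg (x := b₀) (y := b₁)
  have d2 := dist_nonneg (x := p') (y := p₁)
  linarith

theorem order : S_behr → S_order := by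
  intro hb Γ _ W 𝒜 _ Y A B hAB p q h1 h2
  have h3 := Y.hδ
  have h4 := Y.hθ
  obtain ⟨a0, ha0⟩ := Y.Sne A
  obtain ⟨b0, hb0⟩ := Y.Sne B
  rcases hb Y hAB p a0 ha0 b0 hb0 with c | c
  · right
    intro a ha b hb'
    have t1 := pd_tri (Y.Sne A) p b0 q
    rw [pd_symm (Y.Sne A) b0 q] at t1
    have t2 := pd_tri (Y.Sne A) p b0 b
    have e1 := Y.small A B hAB b0 hb0 b hb'
    have t3 := pd_tri (Y.Sne B) q a0 a
    have e2 := Y.small B A hAB.symm a0 ha0 a ha
    rcases hb Y hAB q a0 ha0 b0 hb0 with c' | c'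
    · exfalso
      linarith
    · exact ⟨by linarith, by linarith⟩
  · left
    intro a ha b hb'
    have t1 := pd_tri (Y.Sne B) p a0 q
    rw [pd_symm (Y.Sne B) a0 q] at t1
    have t2 := pd_tri (Y.Sne B) p a0 a
    have e1 := Y.small B A hAB.symm a0 ha0 a ha
    have t3 := pd_tri (Y.Sne A) q b0 b
    have e2 := Y.small A B hAB b0 hb0 b hb'
    rcases hb Y hAB q a0 ha0 b0 hb0 with c' | c'
    · exact ⟨by linarith, by linarith⟩
    · exfalso
      linarith

end Pool.Agent.H79.AN
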