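import Pool.Agent.H343.AN.StF

/-!
# Project AN, job F6: the limit group
-/

set_option autoImplicit false

namespace Pool.Agent.H79.AN

open Pool.Agent.TH68 Pool.Agent.Helper97.Hyp Pool.Agent.H343.AN

namespace F6

section

variable {Γ : Type} [Group Γ]

/-- the metric of the trivial quotient -/
lemma dist_transport {G H : Type} [Group G] [Group H] (W : WNorm G) (e : H ≃* G)
    (a b : Pt (W.transport e)) : dist (pt W (e a.out)) (pt W (e b.out)) = dist a b := by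
  rw [dist_def, dist_def, out_pt, out_pt]
  change _ = (W.ℓ (e (a.out⁻¹ * b.out)) : ℝ)
  rw [map_mul, map_inv]

lemma ACol.mono {W : WNorm Γ} {σ σ' C : ℝ} (h : ACol W σ C) (hσ : σ ≤ σ') : ACol W σ' C :=
  fun T hT a => h T (hσ.trans hT) a

/-- the trivial stage -/
theorem exists_bot (hA : ToolA) (W : WNorm Γ) (hW : Cls Γ W) :
    ∃ S : Stage W, ∀ x ∈ S.K, x = 1 := by
  let e : Γ ⧸ (⊥ : Subgroup Γ) ≃* Γ := QuotientGroup.quotientBot
  have he : ∀ g : Γ, e (g : Γ ⧸ (⊥ : Subgroup Γ)) = g := fun g => rfl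
  obtain ⟨δ, hδ⟩ := hW.hyp
  obtain ⟨σ, hσ⟩ := hW.ac
  refine ⟨⟨⊥, inferInstance, W.transport e, ⟨fun g => ?_, fun g => ?_⟩, ⟨⟨δ, ?_⟩,
    hW.kgrp.of_equiv e, ?_, max σ 0, ?_⟩⟩, fun x hx => Subgroup.mem_bot.mp hx⟩
  · exact le_rfl
  · exact ⟨1, Subgroup.one_mem _, by rw [mul_one]; rfl⟩
  · intro x y z w
    have key := dist_transport W e
    rw [← key, ← key, ← key, ← key, ← key, ← key]
    exact hδ _ _ _ _
  · intro x
    rw [← MulEquiv.orderOf_eq e]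
    exact hW.odd _
  · intro T hT a
    have h1 := hσ T ((le_max_left _ _).trans hT) a
    have hT0 : 0 ≤ T := (le_max_right _ _).trans hT
    have h2 := hA.a3 (X := Pt (W.transport e)) (Y := Pt W) (P := Ann (W.transport e) a T)
      (P' := Ann W a T) (k := 2) (s := T) (s' := T) (D' := 7 * T) (R := 0)
      (fun x => pt W (e x.out)) le_rfl (by positivity) (by
        intro x hx
        have h3 := dist_transport W e (pt (W.transport e) 1) x
        rw [out_pt, map_one] at h3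
        unfold Ann at hx ⊢
        rw [Set.mem_ofPred_eq] at hx ⊢
        rw [h3]
        exact hx) (by
        intro x _ y _ h
        rw [dist_transport]
        exact h) (by
        intro x _ y _
        rw [dist_transport, add_zero]) h1
    rwa [add_zero] at h2

/-- comparison of quotient norms -/
lemma quo_mono {W : WNorm Γ} {K K' : Subgroup Γ} [K.Normal] [K'.Normal] {V : WNorm (Γ ⧸ K)}
    {V' : WNorm (Γ ⧸ K')} (h : Quo W K V) (h' : Quo W K' V') (hK : K ≤ K') (g : Γ) :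
    V'.ℓ (g : Γ ⧸ K') ≤ V.ℓ (g : Γ ⧸ K) := by
  obtain ⟨m, hm, he⟩ := h.ex g
  have h1 := h'.le (g * m)
  have h2 : ((g * m : Γ) : Γ ⧸ K') = (g : Γ ⧸ K') := by
    rw [QuotientGroup.eq]
    have : (g * m)⁻¹ * g = m⁻¹ := by group
    rw [this]
    exact K'.inv_mem (hK hm)
  rw [h2, he] at h1
  exact h1

/-- changing the representative -/
lemma norm_mul_mem {K : Subgroup Γ} [K.Normal] (V : WNorm (Γ ⧸ K)) (g : Γ) {m : Γ} (hm : m ∈ K) :
    V.ℓ ((g * m : Γ) : Γ ⧸ K) = V.ℓ (g : Γ ⧸ K) := by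
  congr 1
  rw [QuotientGroup.eq]
  have : (g * m)⁻¹ * g = m⁻¹ := by group
  rw [this]
  exact K.inv_mem hm

/-- the isometric lift of a ball -/
theorem lift_ball {W : WNorm Γ} {K K' : Subgroup Γ} [K.Normal] [K'.Normal] {V : WNorm (Γ ⧸ K)}
    {V' : WNorm (Γ ⧸ K')} (h : Quo W K V) (h' : Quo W K' V') (hK : K ≤ K') {r : ℝ}
    (hr : ∀ n ∈ K', n ∉ K → 4 * r < (V.ℓ (n : Γ ⧸ K) : ℝ)) (x₀ : Pt V') :
    ∃ f : Pt V' → Pt V, ∀ y ∈ Metric.closedBall x₀ r, ∀ z ∈ Metric.closedBall x₀ r,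
      dist (f y) (f z) = dist y z := by
  obtain ⟨g₀, hg₀⟩ := QuotientGroup.mk_surjective x₀.out
  have hlift : ∀ y : Pt V', ∃ k : Γ, (k : Γ ⧸ K') = y.out ∧
      (W.ℓ (g₀⁻¹ * k) : ℝ) = dist x₀ y := by
    intro y
    obtain ⟨k, hk⟩ := QuotientGroup.mk_surjective y.out
    obtain ⟨n, hn, he⟩ := h'.ex (g₀⁻¹ * k)
    refine ⟨k * n, ?_, ?_⟩
    · rw [← hk, QuotientGroup.eq]
      have : (k * n)⁻¹ * k = n⁻¹ := by group
      rw [this]
      exact K'.inv_mem hn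
    · rw [← mul_assoc, he, dist_def, ← hg₀, ← hk]
      rfl
  choose k hk hk2 using hlift
  refine ⟨fun y => pt V ((k y : Γ) : Γ ⧸ K), fun y hy z hz => ?_⟩
  rw [Metric.mem_closedBall, dist_comm] at hy hz
  have e1 : dist y z = (V'.ℓ (((k y)⁻¹ * k z : Γ) : Γ ⧸ K') : ℝ) := by
    rw [dist_def, ← hk y, ← hk z]
    rfl
  have e2 : dist (pt V ((k y : Γ) : Γ ⧸ K)) (pt V ((k z : Γ) : Γ ⧸ K)) =
      (V.ℓ (((k y)⁻¹ * k z : Γ) : Γ ⧸ K) : ℝ) := rfl
  have e3 : ∀ w, dist x₀ w ≤ r →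
      dist (pt V ((g₀ : Γ) : Γ ⧸ K)) (pt V ((k w : Γ) : Γ ⧸ K)) ≤ r := by
    intro w hw
    have h1 : dist (pt V ((g₀ : Γ) : Γ ⧸ K)) (pt V ((k w : Γ) : Γ ⧸ K)) =
      (V.ℓ ((g₀⁻¹ * k w : Γ) : Γ ⧸ K) : ℝ) := rfl
    have h2 : (V.ℓ ((g₀⁻¹ * k w : Γ) : Γ ⧸ K) : ℝ) ≤ (W.ℓ (g₀⁻¹ * k w) : ℝ) := by
      exact_mod_cast h.le _
    rw [h1]
    rw [hk2] at h2
    exact h2.trans hw
  have e4 : dist (pt V ((k y : Γ) : Γ ⧸ K)) (pt V ((k z : Γ) : Γ ⧸ K)) ≤ 2 * r := by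
    have h1 := dist_triangle (pt V ((k y : Γ) : Γ ⧸ K)) (pt V ((g₀ : Γ) : Γ ⧸ K))
      (pt V ((k z : Γ) : Γ ⧸ K))
    have h2 := e3 y hy
    have h3 := e3 z hz
    rw [dist_comm] at h2
    linarith
  apply le_antisymm
  · obtain ⟨n, hn, he⟩ := h'.ex ((k y)⁻¹ * k z)
    have h1 : (W.ℓ ((k y)⁻¹ * k z * n) : ℝ) = dist y z := by
      rw [e1]
      exact_mod_cast he
    have h2 : (V.ℓ (((k y)⁻¹ * k z * n : Γ) : Γ ⧸ K) : ℝ) ≤ dist y z := by
      rw [← h1]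
      exact_mod_cast h.le _
    by_cases hnK : n ∈ K
    · rw [norm_mul_mem V _ hnK] at h2
      rw [e2]
      exact h2
    · exfalso
      have h3 := hr n hn hnK
      have h4 := V.mul_le ((((k y)⁻¹ * k z : Γ) : Γ ⧸ K))⁻¹
        (((k y)⁻¹ * k z * n : Γ) : Γ ⧸ K)
      rw [V.inv'] at h4
      have h5 : ((((k y)⁻¹ * k z : Γ) : Γ ⧸ K))⁻¹ * (((k y)⁻¹ * k z * n : Γ) : Γ ⧸ K) =
          (n : Γ ⧸ K) := by
        rw [← QuotientGroup.mk_inv, ← QuotientGroup.mk_mul]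
        congr 1
        group
      rw [h5] at h4
      have h6 : (V.ℓ (n : Γ ⧸ K) : ℝ) ≤ (V.ℓ (((k y)⁻¹ * k z : Γ) : Γ ⧸ K) : ℝ) +
          (V.ℓ (((k y)⁻¹ * k z * n : Γ) : Γ ⧸ K) : ℝ) := by
        exact_mod_cast h4
      rw [e2] at e4
      have h7 := dist_triangle y x₀ z
      rw [dist_comm y x₀] at h7
      linarith
  · rw [e1, e2]
    exact_mod_cast quo_mono h h' hK _

/-- one step of the sequence -/
def Nxt {W : WNorm Γ} (L : ℝ) (c x : Γ) (P P' : Stage W × ℝ) : Prop :=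
  P.1.K ≤ P'.1.K ∧ (∃ k : ℕ, 0 < k ∧ x ^ k ∈ P'.1.K) ∧
    (∀ n ∈ P'.1.K, n ∉ P.1.K → 4 * L * P'.2 + W.ℓ c + 1 ≤ (P.1.V.ℓ (n : Γ ⧸ P.1.K) : ℝ)) ∧
    ACol P'.1.V P'.2 (10 ^ 7) ∧ P.2 + 1 ≤ P'.2 ∧ 1 ≤ P'.2

lemma exists_nxt (h5 : S_f5) {W : WNorm Γ} (L : ℝ) (c x : Γ) (P : Stage W × ℝ) :
    ∃ P', Nxt L c x P P' := by
  obtain ⟨τ, hτ⟩ := h5 P.1 x
  set τ' := max (max (P.2 + 1) 1) τ with hτ'
  obtain ⟨S', h1, h2, h3, h4⟩ := hτ (4 * L * τ' + W.ℓ c + 1)
  exact ⟨(S', τ'), h1, h2, h3, ACol.mono (σ := τ) h4 (le_max_right _ _),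
    (le_max_left _ _).trans (le_max_left _ _), (le_max_right _ _).trans (le_max_left _ _)⟩

end

end F6

open F6

theorem f6 : ToolA → S_f5 → S_f6 := by
  intro hA h5 Γ _ _ W hW c hc
  obtain ⟨L, C', hL, hC', hloc⟩ := hA.a5 4 (10 ^ 7) (by norm_num) (by norm_num)
  obtain ⟨f, hf⟩ := exists_surjective_nat Γ
  obtain ⟨S0, hS0⟩ := exists_bot hA W hW
  choose nxt hnxt using fun (i : ℕ) (P : Stage W × ℝ) => exists_nxt h5 L c (f i) P
  let P : ℕ → Stage W × ℝ := fun n => Nat.rec (S0, 0) (fun i p => nxt i p) n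
  have hP : ∀ i, Nxt L c (f i) (P i) (P (i + 1)) := fun i => hnxt i (P i)
  have hP0 : P 0 = (S0, 0) := rfl
  clear_value P
  -- monotonicity
  have hmono : Monotone (fun n => (P n).1.K) := monotone_nat_of_le_succ fun n => (hP n).1
  have hτm : Monotone (fun n => (P n).2) := monotone_nat_of_le_succ fun n => by
    have := (hP n).2.2.2.2.1
    linarith
  have hτn : ∀ n : ℕ, (n : ℝ) ≤ (P n).2 := by
    intro n
    induction n with
    | zero => rw [hP0]; simp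
    | succ n ih =>
      have := (hP n).2.2.2.2.1
      push_cast
      linarith
  set K : Subgroup Γ := ⨆ n, (P n).1.K with hK
  have hdir : Directed (· ≤ ·) (fun n => (P n).1.K) := hmono.directed_le
  have hmem : ∀ x, x ∈ K ↔ ∃ n, x ∈ (P n).1.K := fun x => Subgroup.mem_iSup_of_directed hdir
  have hle : ∀ n, (P n).1.K ≤ K := fun n => le_iSup (fun n => (P n).1.K) n
  have hKn : K.Normal := by
    constructor
    intro n hn g
    obtain ⟨k, hk⟩ := (hmem _).mp hn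
    exact hle k ((P k).1.normal.conj_mem n hk g)
  obtain ⟨V, hV1, hV2⟩ := quot_norm W K
  have hV : Quo W K V := ⟨hV1, hV2⟩
  -- the elements which are killed late are long
  have key : ∀ i, ∀ n ∈ K, n ∉ (P i).1.K →
      4 * L * (P (i + 1)).2 + W.ℓ c + 1 ≤ ((P i).1.V.ℓ (n : Γ ⧸ (P i).1.K) : ℝ) := by
    classical
    intro i n hn hni
    have hex := (hmem n).mp hn
    have h1 := Nat.find_spec hex
    have h2 : i < Nat.find hex := by
      by_contra hcon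
      push Not at hcon
      exact hni (hmono hcon h1)
    obtain ⟨j, hj⟩ : ∃ j, Nat.find hex = j + 1 := ⟨Nat.find hex - 1, by omega⟩
    have h3 : n ∉ (P j).1.K := Nat.find_min hex (by omega)
    rw [hj] at h1
    have h4 := (hP j).2.2.1 n h1 h3
    have hij : i ≤ j := by omega
    have h6 : ((P j).1.V.ℓ (n : Γ ⧸ (P j).1.K) : ℝ) ≤ ((P i).1.V.ℓ (n : Γ ⧸ (P i).1.K) : ℝ) := by
      exact_mod_cast quo_mono (P i).1.quo (P j).1.quo (hmono hij) n
    have h7 : (P (i + 1)).2 ≤ (P (j + 1)).2 := hτm (by omega)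
    have h8 : 4 * L * (P (i + 1)).2 ≤ 4 * L * (P (j + 1)).2 :=
      mul_le_mul_of_nonneg_left h7 (by linarith)
    linarith
  have hcK : c ∉ K := by
    intro h
    have h1 : c ∉ (P 0).1.K := by
      intro h2
      rw [hP0] at h2
      exact hc (hS0 c h2)
    have h2 := key 0 c h h1
    have h3 : ((P 0).1.V.ℓ (c : Γ ⧸ (P 0).1.K) : ℝ) ≤ W.ℓ c := by
      exact_mod_cast (P 0).1.quo.le c
    have h4 := (hP 0).2.2.2.2.2
    have h5 : 0 ≤ 4 * L * (P (0 + 1)).2 := by positivity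
    linarith
  -- orders
  have hord : ∀ (x : Γ) (k : ℕ), 0 < k → x ^ k ∈ K → x ∉ K → ∃ r : ℕ, r.Prime ∧ x ^ r ∈ K := by
    intro x k hk hxk hx
    obtain ⟨n, hn⟩ := (hmem _).mp hxk
    have h1 : IsOfFinOrder (x : Γ ⧸ (P n).1.K) := by
      rw [isOfFinOrder_iff_pow_eq_one]
      exact ⟨k, hk, by rw [← QuotientGroup.mk_pow, mk_eq_one]; exact hn⟩
    rcases (P n).1.cls.kgrp.ord _ h1 with h2 | h2
    · exact absurd (hle n (mk_eq_one.mp h2)) hx
    · refine ⟨_, h2, hle n ?_⟩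
      rw [← mk_eq_one, QuotientGroup.mk_pow, pow_orderOf_eq_one]
  have hordn : ∀ (x : Γ) (r : ℕ), r.Prime → orderOf (x : Γ ⧸ K) = r → ∃ n₀, ∀ n, n₀ ≤ n →
      orderOf (x : Γ ⧸ (P n).1.K) = r := by
    intro x r hr hx
    have h1 : x ^ r ∈ K := by
      rw [← mk_eq_one, QuotientGroup.mk_pow, ← hx, pow_orderOf_eq_one]
    have h2 : x ∉ K := by
      intro h
      rw [← mk_eq_one] at h
      rw [h, orderOf_one] at hx
      rw [← hx] at hr
      exact Nat.not_prime_one hr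
    obtain ⟨n₀, hn₀⟩ := (hmem _).mp h1
    refine ⟨n₀, fun n hn => ?_⟩
    have := Fact.mk hr
    apply orderOf_eq_prime
    · rw [← QuotientGroup.mk_pow, mk_eq_one]
      exact hmono hn hn₀
    · rw [Ne, mk_eq_one]
      exact fun h => h2 (hle n h)
  have hodd : ∀ x : Γ ⧸ K, orderOf x ≠ 2 := by
    intro x hx
    obtain ⟨x, rfl⟩ := QuotientGroup.mk_surjective x
    obtain ⟨n, hn⟩ := hordn x 2 Nat.prime_two hx
    exact (P n).1.cls.odd _ (hn n le_rfl)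
  refine ⟨K, hKn, hcK, ?_, hodd, ?_, V, hV, (P 1).2, C', ?_⟩
  · intro x
    obtain ⟨x, rfl⟩ := QuotientGroup.mk_surjective x
    by_cases hx : x ∈ K
    · left
      exact mk_eq_one.mpr hx
    · right
      obtain ⟨i, hi⟩ := hf x
      obtain ⟨k, hk, hk1⟩ := (hP i).2.1
      rw [hi] at hk1
      obtain ⟨r, hr, hr1⟩ := hord x k hk (hle _ hk1) hx
      have := Fact.mk hr
      rw [orderOf_eq_prime (p := r) (by rw [← QuotientGroup.mk_pow, mk_eq_one]; exact hr1)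
        (by rw [Ne, mk_eq_one]; exact hx)]
      exact hr
  · intro x hx y hxy
    have hx2 := hodd x
    obtain ⟨x, rfl⟩ := QuotientGroup.mk_surjective x
    obtain ⟨y, rfl⟩ := QuotientGroup.mk_surjective y
    obtain ⟨n₁, hn₁⟩ := hordn x _ hx rfl
    have hcomm : x * y * x⁻¹ * y⁻¹ ∈ K := by
      rw [← mk_eq_one, QuotientGroup.mk_mul, QuotientGroup.mk_mul, QuotientGroup.mk_mul,
        QuotientGroup.mk_inv, QuotientGroup.mk_inv, hxy.eq]
      group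
    obtain ⟨n₂, hn₂⟩ := (hmem _).mp hcomm
    set n := max n₁ n₂ with hn
    have h1 := hn₁ n (le_max_left _ _)
    have h2 : Commute (x : Γ ⧸ (P n).1.K) (y : Γ ⧸ (P n).1.K) := by
      have h3 : ((x * y * x⁻¹ * y⁻¹ : Γ) : Γ ⧸ (P n).1.K) = 1 :=
        mk_eq_one.mpr (hmono (le_max_right _ _) hn₂)
      rw [QuotientGroup.mk_mul, QuotientGroup.mk_mul, QuotientGroup.mk_mul, QuotientGroup.mk_inv,
        QuotientGroup.mk_inv, mul_inv_eq_one, mul_inv_eq_iff_eq_mul] at h3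
      exact h3
    obtain ⟨s, hs⟩ := (P n).1.cls.kgrp.cent _ (by rw [h1]; exact hx) (by rw [h1]; exact hx2) _ h2
    have hs' : (x : Γ ⧸ (P n).1.K) ^ s = y := hs
    refine ⟨s, ?_⟩
    change (x : Γ ⧸ K) ^ s = (y : Γ ⧸ K)
    rw [← QuotientGroup.mk_zpow] at hs' ⊢
    rw [QuotientGroup.eq] at hs' ⊢
    exact hle n hs'
  · -- the colouring
    have hτ1 : 0 < (P 1).2 := lt_of_lt_of_le one_pos (hP 0).2.2.2.2.2
    refine hloc (P 1).2 hτ1 ?_
    classical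
    intro s hs x₀
    have hex : ∃ j : ℕ, s < (P j).2 := by
      obtain ⟨j, hj⟩ := exists_nat_gt s
      exact ⟨j, hj.trans_le (hτn j)⟩
    have h1 := Nat.find_spec hex
    have h2 : 1 < Nat.find hex := by
      by_contra hcon
      push Not at hcon
      have h3 : (P (Nat.find hex)).2 ≤ (P 1).2 := hτm hcon
      linarith
    obtain ⟨i, hi⟩ : ∃ i, Nat.find hex = i + 2 := ⟨Nat.find hex - 2, by omega⟩
    have h3 : (P (i + 1)).2 ≤ s := not_lt.mp (Nat.find_min hex (by omega))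
    rw [hi] at h1
    have hs0 : 0 < s := hτ1.trans_le hs
    have h4 := (hP i).2.2.2.1
    have h6 : Col (Set.univ : Set (Pt (P (i + 1)).1.V)) 4 s (10 ^ 7 * s) :=
      hA.a6 (pt (P (i + 1)).1.V 1) hs0 (by positivity) fun a => h4 s h3 a
    obtain ⟨g, hg⟩ := lift_ball (P (i + 1)).1.quo hV (hle (i + 1)) (r := L * s) (fun n hn hni => by
      have h7 := key (i + 1) n hn hni
      have h8 : 4 * L * s ≤ 4 * L * (P (i + 1 + 1)).2 :=
        mul_le_mul_of_nonneg_left h1.le (by linarith)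
      have h9 : (0 : ℝ) ≤ W.ℓ c := Nat.cast_nonneg _
      linarith) x₀
    have h10 := hA.a3 (X := Pt V) (Y := Pt (P (i + 1)).1.V)
      (P := Metric.closedBall x₀ (L * s)) (P' := Set.univ) (k := 4) (s := s) (s' := s)
      (D' := 10 ^ 7 * s) (R := 0) g le_rfl (by positivity) (fun _ _ => trivial)
      (fun x hx y hy h => by rw [hg x hx y hy]; exact h)
      (fun x hx y hy => by rw [hg x hx y hy, add_zero]) h6
    rwa [add_zero] at h10

end Pool.Agent.H79.AN
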